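import Pool.Agent.H90.FB.Fin

/-!
# Fibonacci numbers that are half a sum or difference of two cubes

If `2 F_n = x^3 + y^3`, then `n` lies in one of 24 classes modulo `48` and `c = (x + y) / 2` is a divisor of
`F_n = c (c^2 + 3 k^2)`. The values `c < 2^19` are settled in `Pool/Agent/H90/FB` (Jacobi symbols for `c = 1, 2`,
congruences for the others). For the odd primes `p = 2 mod 3` the exponent of `p` in `c^2 + 3 k^2` is even.
-/

set_option autoImplicit false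

namespace Pool.Agent.Results.MP_572ea3_nt.HalfCubes

lemma per (m p : ℕ) (h0 : Nat.fib p % m = 0) (h1 : Nat.fib (p + 1) % m = 1 % m) (r q : ℕ) :
    Nat.fib (r + p * q) ≡ Nat.fib r [MOD m] := by
  have h0' : Nat.fib p ≡ 0 [MOD m] := by
    unfold Nat.ModEq
    rw [h0, Nat.zero_mod]
  have h1' : Nat.fib (p + 1) ≡ 1 [MOD m] := h1
  have step : ∀ n, Nat.fib (n + p) ≡ Nat.fib n [MOD m] := by
    intro n
    rcases n with _ | n
    · rw [Nat.zero_add]
      exact h0'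
    · have e : n + 1 + p = n + p + 1 := by ring
      rw [e, Nat.fib_add]
      have := (h0'.mul_left (Nat.fib n)).add (h1'.mul_left (Nat.fib (n + 1)))
      rw [Nat.mul_zero, Nat.zero_add, Nat.mul_one] at this
      exact this
  induction q with
  | zero => exact Nat.ModEq.refl _
  | succ q ih =>
    have e : r + p * (q + 1) = r + p * q + p := by ring
    rw [e]
    exact (step _).trans ih

lemma per_mod (m p n : ℕ) (h0 : Nat.fib p % m = 0) (h1 : Nat.fib (p + 1) % m = 1 % m) :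
    Nat.fib n % m = Nat.fib (n % p) % m := by
  have := per m p h0 h1 (n % p) (n / p)
  rw [Nat.mod_add_div] at this
  exact this

/-- Cubes are injective modulo a prime `p` congruent to `2` modulo `3`. -/
lemma cube_inj {p : ℕ} (hp : p.Prime) (h3 : p % 3 = 2) {a b : ℤ} (h : (p : ℤ) ∣ a ^ 3 + b ^ 3) :
    (p : ℤ) ∣ a + b := by
  have : Fact p.Prime := ⟨hp⟩
  have key : ∀ x : ZMod p, x = (x ^ 3) ^ (2 * (p / 3) + 1) := by
    intro x
    have e : 3 * (2 * (p / 3) + 1) = p + (p - 1) := by omega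
    rw [← pow_mul, e, pow_add, ZMod.pow_card, ← pow_succ']
    have e2 : p - 1 + 1 = p := Nat.succ_pred_eq_of_pos hp.pos
    rw [e2, ZMod.pow_card]
  have h0 : ((a ^ 3 + b ^ 3 : ℤ) : ZMod p) = 0 := (ZMod.intCast_zmod_eq_zero_iff_dvd _ _).2 h
  push_cast at h0
  have h1 : ((a : ZMod p)) ^ 3 = (-(b : ZMod p)) ^ 3 := by linear_combination h0
  have h2 : (a : ZMod p) = -(b : ZMod p) := by
    rw [key a, h1, ← key]
  apply (ZMod.intCast_zmod_eq_zero_iff_dvd _ _).1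
  push_cast
  rw [h2]
  ring

/-- The residues modulo `48`. -/
lemma residues {n : ℕ} {x y : ℤ} (h : 2 * (Nat.fib n : ℤ) = x ^ 3 + y ^ 3) :
    n % 48 ∈ ({0, 1, 2, 6, 7, 10, 12, 14, 17, 18, 22, 23, 24, 25, 26, 30, 31, 34, 36, 38, 41, 42, 46, 47} :
      Finset ℕ) := by
  by_contra hne
  have hdec : ∀ r < 48, r ∉ ({0, 1, 2, 6, 7, 10, 12, 14, 17, 18, 22, 23, 24, 25, 26, 30, 31, 34, 36, 38, 41,
      42, 46, 47} : Finset ℕ) → ∃ m ∈ [7, 9], ∀ i < m, ∀ j < m, (i ^ 3 + j ^ 3) % m ≠ (2 * Nat.fib r) % m := by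
    decide
  obtain ⟨m, hm, hj⟩ := hdec (n % 48) (Nat.mod_lt _ (by norm_num)) hne
  have hm48 : m ≠ 0 ∧ Nat.fib 48 % m = 0 ∧ Nat.fib 49 % m = 1 % m := by
    simp only [List.mem_cons, List.not_mem_nil, or_false] at hm
    rcases hm with h' | h' <;> rw [h'] <;> decide
  have h1 := per_mod m 48 n hm48.2.1 hm48.2.2
  have hmz : (m : ℤ) ≠ 0 := by exact_mod_cast hm48.1
  have hex : ∀ k : ℤ, ∃ j : ℕ, j < m ∧ k ≡ j [ZMOD m] := by
    intro k
    refine ⟨(k % m).toNat, ?_, ?_⟩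
    · have := Int.emod_lt_of_pos k (b := (m : ℤ)) (by have := hm48.1; omega)
      have h0 := Int.emod_nonneg k hmz
      omega
    · rw [Int.toNat_of_nonneg (Int.emod_nonneg _ hmz)]
      exact (Int.mod_modEq _ _).symm
  obtain ⟨i, him, hi⟩ := hex x
  obtain ⟨j, hjm, hj'⟩ := hex y
  apply hj i him j hjm
  have h3 : ((2 * Nat.fib n : ℕ) : ℤ) ≡ ((i ^ 3 + j ^ 3 : ℕ) : ℤ) [ZMOD m] := by
    push_cast
    rw [h]
    exact (hi.pow 3).add (hj'.pow 3)
  have h4 : 2 * Nat.fib n ≡ i ^ 3 + j ^ 3 [MOD m] := Int.natCast_modEq_iff.1 h3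
  have h5 : Nat.fib n ≡ Nat.fib (n % 48) [MOD m] := h1
  exact (h4.symm.trans (h5.mul_left 2))

/-- The exponent of an odd prime `p = 2 mod 3` in `c^2 + 3 k^2`. -/
lemma val {p : ℕ} (hp : p.Prime) (hp2 : p ≠ 2) (h3 : p % 3 = 2) : ∀ c : ℕ, 0 < c → ∀ k : ℕ,
    ∃ j ≤ c.factorization p, (c ^ 2 + 3 * k ^ 2).factorization p = 2 * j := by
  intro c
  induction c using Nat.strong_induction_on with
  | _ c ih =>
    intro hc k
    by_cases hd : p ∣ c ^ 2 + 3 * k ^ 2
    · have hz : (p : ℤ) ∣ ((c : ℤ) + k) ^ 3 + ((c : ℤ) - k) ^ 3 := by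
        have e : ((c : ℤ) + k) ^ 3 + ((c : ℤ) - k) ^ 3 = (2 * c) * ((c ^ 2 + 3 * k ^ 2 : ℕ) : ℤ) := by
          push_cast
          ring
        rw [e]
        exact Dvd.dvd.mul_left (by exact_mod_cast hd) _
      have h1 := cube_inj hp h3 hz
      have h2 : (p : ℤ) ∣ 2 * (c : ℤ) := by
        have e : ((c : ℤ) + k) + ((c : ℤ) - k) = 2 * c := by ring
        rwa [e] at h1
      have h2' : p ∣ 2 * c := by exact_mod_cast h2
      have hpc : p ∣ c := by
        rcases (Nat.Prime.dvd_mul hp).1 h2' with h' | h'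
        · exact absurd ((Nat.prime_dvd_prime_iff_eq hp Nat.prime_two).1 h') hp2
        · exact h'
      have hpk : p ∣ k := by
        have h4 : p ∣ 3 * k ^ 2 := (Nat.dvd_add_right (dvd_pow hpc (by norm_num))).1 hd
        rcases (Nat.Prime.dvd_mul hp).1 h4 with h' | h'
        · have := (Nat.prime_dvd_prime_iff_eq hp Nat.prime_three).1 h'
          omega
        · exact hp.dvd_of_dvd_pow h'
      obtain ⟨c', rfl⟩ := hpc
      obtain ⟨k', rfl⟩ := hpk
      have hc' : 0 < c' := Nat.pos_of_mul_pos_left hc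
      have hlt : c' < p * c' := by
        have := hp.two_le
        nlinarith
      obtain ⟨j, hj, hj'⟩ := ih c' hlt hc' k'
      have e1 : (p * c').factorization p = 1 + c'.factorization p := by
        rw [Nat.factorization_mul hp.ne_zero hc'.ne', Finsupp.add_apply, hp.factorization_self]
      have hne : c' ^ 2 + 3 * k' ^ 2 ≠ 0 := by positivity
      have e2 : ((p * c') ^ 2 + 3 * (p * k') ^ 2).factorization p =
          2 + (c' ^ 2 + 3 * k' ^ 2).factorization p := by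
        have e3 : (p * c') ^ 2 + 3 * (p * k') ^ 2 = p ^ 2 * (c' ^ 2 + 3 * k' ^ 2) := by ring
        rw [e3, Nat.factorization_mul (pow_ne_zero 2 hp.ne_zero) hne, Finsupp.add_apply,
          Nat.factorization_pow, Finsupp.smul_apply, hp.factorization_self, smul_eq_mul, mul_one]
      refine ⟨j + 1, ?_, ?_⟩
      · rw [e1]
        omega
      · rw [e2, hj']
        ring
    · exact ⟨0, Nat.zero_le _, by rw [Nat.factorization_eq_zero_of_not_dvd hd]⟩

theorem result (n : ℕ) (hn : 0 < n) (x y : ℤ) (h : 2 * (Nat.fib n : ℤ) = x ^ 3 + y ^ 3) :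
    n % 48 ∈ ({0, 1, 2, 6, 7, 10, 12, 14, 17, 18, 22, 23, 24, 25, 26, 30, 31, 34, 36, 38, 41, 42, 46, 47} :
      Finset ℕ) ∧
    (n = 1 ∨ n = 2 ∨ n = 6 ∨ n = 7 ∨
      ∃ c : ℕ, x + y = 2 * c ∧ 2 ^ 19 ≤ c ∧ c ∣ Nat.fib n ∧ c ^ 3 ≤ Nat.fib n ∧
        ∀ p : ℕ, p.Prime → p ≠ 2 → p % 3 = 2 →
          ∃ j ≤ c.factorization p, (Nat.fib n).factorization p = c.factorization p + 2 * j) := by
  refine ⟨residues h, ?_⟩
  obtain ⟨c, t, hc0, hxy, hF⟩ := Pool.Agent.H90.FB.form hn h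
  obtain ⟨K, hK⟩ : ∃ K : ℕ, (K : ℤ) ^ 2 = t ^ 2 := ⟨t.natAbs, Int.natAbs_sq t⟩
  rw [← hK] at hF
  have hF' : Nat.fib n = c * (c ^ 2 + 3 * K ^ 2) := by exact_mod_cast hF
  rcases Nat.lt_or_ge c (2 ^ 19) with hlt | hge
  · have := Pool.Agent.H90.FB.small hn hc0 hlt hF
    tauto
  · right; right; right; right
    refine ⟨c, hxy, hge, ⟨_, hF'⟩, ?_, ?_⟩
    · rw [hF']
      calc c ^ 3 = c * c ^ 2 := by ring
        _ ≤ c * (c ^ 2 + 3 * K ^ 2) := Nat.mul_le_mul_left c (Nat.le_add_right _ _)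
    · intro p hp hp2 hp3
      obtain ⟨j, hj, hj'⟩ := val hp hp2 hp3 c hc0 K
      refine ⟨j, hj, ?_⟩
      have hne : c ^ 2 + 3 * K ^ 2 ≠ 0 := by positivity
      rw [hF', Nat.factorization_mul hc0.ne' hne, Finsupp.add_apply, hj']

end Pool.Agent.Results.MP_572ea3_nt.HalfCubes
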