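import Pool.Agent.H21.FC.Smooth2

/-!
For a positive index n there are integers x, y with 2 F_n = x^3 + y^3 such that every prime factor of
x + y is less than 89, if and only if n is 1, 2, 6 or 7.
-/

namespace Pool.Agent.Results.MP_572ea3_nt.SmoothSum

theorem result (n : ℕ) (hn : 0 < n) :
    (∃ x y : ℤ, 2 * (Nat.fib n : ℤ) = x ^ 3 + y ^ 3 ∧
      ∀ p : ℕ, p.Prime → (p : ℤ) ∣ x + y → p < 89) ↔
      n = 1 ∨ n = 2 ∨ n = 6 ∨ n = 7 := by
  constructor
  · rintro ⟨x, y, h, hS⟩
    exact H21FC.smooth hn h hS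
  · have key : ∀ p : ℕ, ∀ m : ℕ, 0 < m → m ≤ 4 → (p : ℤ) ∣ (m : ℤ) → p < 89 := by
      intro p m hm hm' hd
      have h1 : p ∣ m := by exact_mod_cast hd
      have h2 := (Nat.le_of_dvd hm h1).trans hm'
      omega
    rintro (rfl | rfl | rfl | rfl)
    · exact ⟨1, 1, by norm_num, fun p _ hd => key p 2 (by norm_num) (by norm_num) (by simpa using hd)⟩
    · exact ⟨1, 1, by norm_num, fun p _ hd => key p 2 (by norm_num) (by norm_num) (by simpa using hd)⟩
    · exact ⟨2, 2, by norm_num [Nat.fib_add_two],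
        fun p _ hd => key p 4 (by norm_num) (by norm_num) (by
          rw [show (2 : ℤ) + 2 = ((4 : ℕ) : ℤ) by norm_num] at hd; exact hd)⟩
    · exact ⟨3, -1, by norm_num [Nat.fib_add_two],
        fun p _ hd => key p 2 (by norm_num) (by norm_num) (by
          rw [show (3 : ℤ) + -1 = ((2 : ℕ) : ℤ) by norm_num] at hd; exact hd)⟩

end Pool.Agent.Results.MP_572ea3_nt.SmoothSum
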